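import Pool.Agent.V7H85.OK.Spec

/-! Piece POLY: a polynomial with weakly alternating values at `c + 1` points has degree at
least `c`. -/

set_option autoImplicit false

namespace Pool.Agent.V7H39.OK

open Polynomial Finset Pool.Agent.V7H85.OK

/-- the sign of the nodal product -/
theorem nodal_sign (c : ℕ) (u : ℕ → ℝ) (hu : ∀ i j, i < j → j ≤ c → u i < u j) (k : ℕ)
    (hk : k ≤ c) : 0 < (-1 : ℝ) ^ (c - k) * ∏ j ∈ (range (c + 1)).erase k, (u k - u j) := by
  have h1 : ∏ j ∈ (range (c + 1)).erase k, (u k - u j) =
      (∏ j ∈ (range (c + 1)).erase k, (if k < j then (-1 : ℝ) else 1)) *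
        ∏ j ∈ (range (c + 1)).erase k, |u k - u j| := by
    rw [← prod_mul_distrib]
    refine prod_congr rfl fun j hj => ?_
    rw [mem_erase, mem_range] at hj
    split_ifs with h
    · have := hu k j h (by omega)
      rw [abs_of_neg (by linarith)]
      ring
    · have := hu j k (by omega) hk
      rw [abs_of_pos (by linarith)]
      ring
  have h2 : ∏ j ∈ (range (c + 1)).erase k, (if k < j then (-1 : ℝ) else 1) = (-1) ^ (c - k) := by
    rw [prod_ite, prod_const, prod_const_one, mul_one]
    congr 1
    have : ((range (c + 1)).erase k).filter (fun j => k < j) = Ico (k + 1) (c + 1) := by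
      ext j
      simp only [mem_filter, mem_erase, mem_range, mem_Ico]
      omega
    rw [this, Nat.card_Ico]
    omega
  rw [h1, h2, ← mul_assoc, ← mul_pow]
  norm_num
  refine prod_pos fun j hj => abs_pos.mpr ?_
  rw [mem_erase, mem_range] at hj
  rcases Nat.lt_or_gt_of_ne hj.1 with h | h
  · have := hu j k h hk
    intro h0
    linarith
  · have := hu k j h (by omega)
    intro h0
    linarith

/-- a nonzero polynomial with weakly alternating values at `c + 1` nodes has degree `≥ c`. -/
theorem alt_nodes (c : ℕ) (u : ℕ → ℝ) (p : ℝ[X]) (s : ℝ) (hs : s ≠ 0)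
    (hu : ∀ i j, i < j → j ≤ c → u i < u j) (hp : p ≠ 0)
    (hsg : ∀ k ≤ c, 0 ≤ s * (-1) ^ k * p.eval (u k)) : c ≤ p.natDegree := by
  by_contra hlt
  rw [not_le] at hlt
  have hinj : Set.InjOn u (range (c + 1) : Finset ℕ) := by
    intro i hi j hj hij
    rw [mem_coe, mem_range] at hi hj
    rcases Nat.lt_trichotomy i j with h | h | h
    · have := hu i j h (by omega)
      linarith
    · exact h
    · have := hu j i h (by omega)
      linarith
  have hdeg : p.degree < ((range (c + 1)).card : ℕ) := by
    rw [card_range]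
    refine lt_of_le_of_lt degree_le_natDegree ?_
    exact_mod_cast (by omega : p.natDegree < c + 1)
  have hsum := Lagrange.coeff_eq_sum hinj hdeg
  rw [card_range, Nat.add_sub_cancel, coeff_eq_zero_of_natDegree_lt hlt] at hsum
  have hnn : ∀ k ∈ range (c + 1), 0 ≤ s * (-1) ^ c *
      (p.eval (u k) / ∏ j ∈ (range (c + 1)).erase k, (u k - u j)) := by
    intro k hk
    rw [mem_range] at hk
    have hk' : k ≤ c := by omega
    have h1 := nodal_sign c u hu k hk'
    set P := ∏ j ∈ (range (c + 1)).erase k, (u k - u j) with hP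
    have hP0 : P ≠ 0 := by
      intro h
      rw [h, mul_zero] at h1
      exact lt_irrefl _ h1
    have h2 : s * (-1) ^ c * (p.eval (u k) / P) =
        (s * (-1) ^ k * p.eval (u k)) * ((-1) ^ (c - k) * P) / P ^ 2 := by
      have h3 : (-1 : ℝ) ^ c = (-1) ^ k * (-1) ^ (c - k) := by
        rw [← pow_add]
        congr 1
        omega
      rw [h3]
      field_simp
    rw [h2]
    exact div_nonneg (mul_nonneg (hsg k hk') h1.le) (sq_nonneg _)
  have hz := (sum_eq_zero_iff_of_nonneg hnn).mp (by rw [← mul_sum, ← hsum, mul_zero])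
  have hev : ∀ k ∈ range (c + 1), p.eval (u k) = 0 := by
    intro k hk
    have h0 := hz k hk
    rw [mem_range] at hk
    have h1 := nodal_sign c u hu k (by omega)
    have hP0 : ∏ j ∈ (range (c + 1)).erase k, (u k - u j) ≠ 0 := by
      intro h
      rw [h, mul_zero] at h1
      exact lt_irrefl _ h1
    rcases mul_eq_zero.mp h0 with h | h
    · rcases mul_eq_zero.mp h with h | h
      · exact absurd h hs
      · exact absurd h (by positivity)
    · rcases div_eq_zero_iff.mp h with h | h
      · exact h
      · exact absurd h hP0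
  apply hp
  refine Polynomial.eq_zero_of_natDegree_lt_card_of_eval_eq_zero' p ((range (c + 1)).image u) ?_ ?_
  · intro x hx
    obtain ⟨k, hk, rfl⟩ := mem_image.mp hx
    exact hev k hk
  · rw [card_image_of_injOn hinj, card_range]
    omega

/-- one more step of the number of changes. -/
theorem chg_succ (m : ℕ) (σ : ℕ → Bool) :
    chg (m + 2) σ = chg (m + 1) σ + if σ m ≠ σ (m + 1) then 1 else 0 := by
  unfold chg
  have h1 : m + 2 - 1 = m + 1 := by omega
  have h2 : m + 1 - 1 = m := by omega
  rw [h1, h2, range_add_one, filter_insert]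
  split_ifs with h
  · rw [card_insert_of_notMem]
    simp
  · rfl

/-- nodes with alternating signs. -/
theorem nodes (σ : ℕ → Bool) (m : ℕ) : ∃ g : ℕ → ℕ,
    (∀ i j, i < j → j ≤ chg (m + 1) σ → g i < g j) ∧
    (∀ k ≤ chg (m + 1) σ, g k ≤ m ∧ σ (g k) = (σ 0 ^^ decide (k % 2 = 1))) ∧
    σ m = (σ 0 ^^ decide (chg (m + 1) σ % 2 = 1)) := by
  induction m with
  | zero =>
    have h0 : chg (0 + 1) σ = 0 := by simp [chg]
    refine ⟨fun _ => 0, ?_, ?_, ?_⟩
    · intro i j hij hj
      omega
    · intro k hk
      rw [h0] at hk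
      obtain rfl : k = 0 := by omega
      simp
    · rw [h0]
      simp
  | succ m ih =>
    obtain ⟨g, hg1, hg2, hg3⟩ := ih
    have hs := chg_succ m σ
    have e : m + 1 + 1 = m + 2 := rfl
    by_cases h : σ m ≠ σ (m + 1)
    · rw [if_pos h] at hs
      set c := chg (m + 1) σ with hc
      have hlast : σ (m + 1) = (σ 0 ^^ decide ((c + 1) % 2 = 1)) := by
        have h' : σ (m + 1) = !(σ m) := by
          cases h1 : σ m <;> cases h2 : σ (m + 1) <;> simp_all
        rw [h', hg3]
        rcases Nat.mod_two_eq_zero_or_one c with h0 | h0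
        · have : (c + 1) % 2 = 1 := by omega
          rw [h0, this]
          cases σ 0 <;> rfl
        · have : (c + 1) % 2 = 0 := by omega
          rw [h0, this]
          cases σ 0 <;> rfl
      rw [e, hs]
      refine ⟨fun k => if k ≤ c then g k else m + 1, ?_, ?_, hlast⟩
      · intro i j hij hj
        simp only
        by_cases hjc : j ≤ c
        · rw [if_pos hjc, if_pos (by omega)]
          exact hg1 i j hij hjc
        · rw [if_neg hjc, if_pos (by omega)]
          have := (hg2 i (by omega)).1
          omega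
      · intro k hk
        simp only
        by_cases hkc : k ≤ c
        · rw [if_pos hkc]
          have := hg2 k hkc
          exact ⟨by omega, this.2⟩
        · rw [if_neg hkc]
          obtain rfl : k = c + 1 := by omega
          exact ⟨le_rfl, hlast⟩
    · rw [if_neg h, add_zero] at hs
      rw [e, hs]
      push Not at h
      refine ⟨g, hg1, ?_, ?_⟩
      · intro k hk
        have := hg2 k hk
        exact ⟨by omega, this.2⟩
      · rw [← h]
        exact hg3

/-- Piece POLY. -/
theorem t_POLY : S_POLY := by
  intro n t p σ hp ht hσ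
  rcases Nat.eq_zero_or_pos n with rfl | hn
  · simp [chg]
  obtain ⟨m, rfl⟩ : ∃ m, n = m + 1 := ⟨n - 1, by omega⟩
  obtain ⟨g, hg1, hg2, -⟩ := nodes σ m
  refine alt_nodes (chg (m + 1) σ) (fun k => t (g k)) p (if σ 0 = true then 1 else -1) ?_ ?_ hp ?_
  · split_ifs <;> norm_num
  · intro i j hij hj
    exact ht _ _ (hg1 i j hij hj) (by have := (hg2 j hj).1; omega)
  · intro k hk
    obtain ⟨h1, h2⟩ := hg2 k hk
    have hc := hσ (g k) (by omega)
    rcases Nat.mod_two_eq_zero_or_one k with h0 | h0
    · have hpw : (-1 : ℝ) ^ k = 1 := Even.neg_one_pow (Nat.even_iff.mpr h0)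
      rw [hpw]
      rw [h0] at h2
      cases hσ0 : σ 0
      · rw [hσ0] at h2
        have := hc.2 (by simpa using h2)
        simpa using this
      · rw [hσ0] at h2
        have := hc.1 (by simpa using h2)
        simpa using this
    · have hpw : (-1 : ℝ) ^ k = -1 := Odd.neg_one_pow (Nat.odd_iff.mpr h0)
      rw [hpw]
      rw [h0] at h2
      cases hσ0 : σ 0
      · rw [hσ0] at h2
        have := hc.1 (by simpa using h2)
        simpa using this
      · rw [hσ0] at h2
        have := hc.2 (by simpa using h2)
        simpa using this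

end Pool.Agent.V7H39.OK
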